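import Pool.Agent.H59.L.S8.H176.DT.Stm2

/-!
# Factors of dominated polynomials are dominated (project DT, `S2_prod`)
-/

set_option autoImplicit false
set_option linter.all false

universe u

namespace Pool.Agent.H971.DT2

open Pool.Agent.H176.DT Polynomial

section digits

variable {E : Type u} [Field E]

/-- the digits -/
noncomputable def dg (ϕ : E[X]) : ℕ → E[X] → E[X]
  | 0, f => f %ₘ ϕ
  | k + 1, f => dg ϕ k (f /ₘ ϕ)

theorem dg_zero {ϕ : E[X]} (k : ℕ) : dg ϕ k 0 = 0 := by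
  induction k with
  | zero => exact zero_modByMonic ϕ
  | succ k ih =>
    show dg ϕ k (0 /ₘ ϕ) = 0
    rw [zero_divByMonic]
    exact ih

theorem dg_deg {ϕ : E[X]} (hm : ϕ.Monic) (k : ℕ) (f : E[X]) : (dg ϕ k f).degree < ϕ.degree := by
  induction k generalizing f with
  | zero => exact degree_modByMonic_lt f hm
  | succ k ih => exact ih _

theorem dg_uniq {ϕ : E[X]} (hm : ϕ.Monic) (N : ℕ) (d : ℕ → E[X]) (f : E[X]) (h : Exn ϕ N d f) :
    (∀ k < N, dg ϕ k f = d k) ∧ ∀ k, N ≤ k → dg ϕ k f = 0 := by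
  induction N generalizing d f with
  | zero =>
    have hf : f = 0 := by rw [h.sum]; simp
    rw [hf]
    exact ⟨fun k hk => absurd hk (by omega), fun k _ => dg_zero k⟩
  | succ N ih =>
    set g : E[X] := ∑ k ∈ Finset.range N, d (k + 1) * ϕ ^ k with hg
    have e : d 0 + ϕ * g = f := by
      rw [h.sum, Finset.sum_range_succ', hg, Finset.mul_sum, pow_zero, mul_one, add_comm]
      congr 1
      refine Finset.sum_congr rfl fun k _ => ?_
      rw [pow_succ]
      ring
    obtain ⟨h1, h2⟩ := div_modByMonic_unique g (d 0) hm ⟨e, h.deg 0⟩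
    obtain ⟨i1, i2⟩ := ih (fun k => d (k + 1)) g ⟨fun k => h.deg (k + 1), hg⟩
    constructor
    · intro k hk
      cases k with
      | zero => exact h2
      | succ k =>
        show dg ϕ k (f /ₘ ϕ) = _
        rw [h1]
        exact i1 k (by omega)
    · intro k hk
      cases k with
      | zero => omega
      | succ k =>
        show dg ϕ k (f /ₘ ϕ) = _
        rw [h1]
        exact i2 k (by omega)

theorem dg_exists {ϕ : E[X]} (hm : ϕ.Monic) (hd : 0 < ϕ.natDegree) (f : E[X]) :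
    ∃ N, Exn ϕ N (fun k => dg ϕ k f) f := by
  have hd' : 0 < ϕ.degree := natDegree_pos_iff_degree_pos.1 hd
  induction hn : f.natDegree using Nat.strong_induction_on generalizing f with
  | _ n ih =>
    by_cases h : f.degree < ϕ.degree
    · refine ⟨1, fun k => dg_deg hm k f, ?_⟩
      rw [Finset.sum_range_one, pow_zero, mul_one]
      exact ((modByMonic_eq_self_iff hm).2 h).symm
    · push Not at h
      have h1 : (f /ₘ ϕ).natDegree < n := by
        rw [natDegree_divByMonic f hm, hn]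
        have h2 : ϕ.natDegree ≤ f.natDegree := natDegree_le_natDegree h
        omega
      obtain ⟨N, hN⟩ := ih _ h1 (f /ₘ ϕ) rfl
      refine ⟨N + 1, fun k => dg_deg hm k f, ?_⟩
      rw [Finset.sum_range_succ']
      have e : ∑ k ∈ Finset.range N, dg ϕ (k + 1) f * ϕ ^ (k + 1) = ϕ * (f /ₘ ϕ) := by
        conv_rhs => rw [hN.sum, Finset.mul_sum]
        refine Finset.sum_congr rfl fun k _ => ?_
        show dg ϕ k (f /ₘ ϕ) * ϕ ^ (k + 1) = _
        rw [pow_succ]
        ring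
      rw [e, pow_zero, mul_one, add_comm]
      exact (modByMonic_add_div f ϕ).symm

end digits

section val

variable {E : Type u} [Field E] {Γ : Type u} [LinearOrderedCommGroupWithZero Γ]
  (v : Valuation E[X] Γ) {ϕ : E[X]}

theorem lt_mul_aux {a b c d : Γ} (h1 : a < b) (h2 : c ≤ d) (hd : 0 < d) : a * c < b * d :=
  lt_of_le_of_lt (mul_le_mul' le_rfl h2) (mul_lt_mul_of_pos_right h1 hd)

/-- the smallest index of a dominating term -/
theorem exists_top (hm : ϕ.Monic) (hd : 0 < ϕ.natDegree) (hv : ∀ f, v f = 0 → f = 0) {f : E[X]}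
    (hf : f ≠ 0) : ∃ k₀, (∀ k, v (dg ϕ k f * ϕ ^ k) ≤ v (dg ϕ k₀ f * ϕ ^ k₀)) ∧
      (∀ k < k₀, v (dg ϕ k f * ϕ ^ k) < v (dg ϕ k₀ f * ϕ ^ k₀)) ∧
      v f ≤ v (dg ϕ k₀ f * ϕ ^ k₀) := by
  classical
  obtain ⟨N, hN⟩ := dg_exists hm hd f
  obtain ⟨-, hz⟩ := dg_uniq hm N _ f hN
  have hN0 : N ≠ 0 := by
    rintro rfl
    apply hf
    rw [hN.sum]
    simp
  obtain ⟨k1, hk1, hmax⟩ := Finset.exists_max_image (Finset.range N)
    (fun k => v (dg ϕ k f * ϕ ^ k)) ⟨0, Finset.mem_range.2 (Nat.pos_of_ne_zero hN0)⟩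
  have hex : ∃ k₀, ∀ k, v (dg ϕ k f * ϕ ^ k) ≤ v (dg ϕ k₀ f * ϕ ^ k₀) := by
    refine ⟨k1, fun k => ?_⟩
    by_cases hk : k < N
    · exact hmax k (Finset.mem_range.2 hk)
    · rw [hz k (by omega), zero_mul, map_zero]
      exact zero_le
  refine ⟨Nat.find hex, Nat.find_spec hex, fun k hk => ?_, ?_⟩
  · have h1 := Nat.find_min hex hk
    push Not at h1
    obtain ⟨j, hj⟩ := h1
    exact hj.trans_le (Nat.find_spec hex j)
  · conv_lhs => rw [hN.sum]
    exact v.map_sum_le fun k _ => Nat.find_spec hex k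

theorem main (hm : ϕ.Monic) (hd : 0 < ϕ.natDegree) (hv : ∀ f, v f = 0 → f = 0)
    (key : ∀ f g : E[X], f.degree < ϕ.degree → g.degree < ϕ.degree → f ≠ 0 → g ≠ 0 →
      v ((f * g /ₘ ϕ) * ϕ) < v (f * g)) {f g : E[X]} (hf : f ≠ 0) (hg : g ≠ 0)
    (hfg : ∀ k, v (dg ϕ k (f * g) * ϕ ^ k) ≤ v (f * g)) (k : ℕ) :
    v (dg ϕ k f * ϕ ^ k) ≤ v f := by
  classical
  obtain ⟨N, hN⟩ := dg_exists hm hd f
  obtain ⟨N', hN'⟩ := dg_exists hm hd g
  obtain ⟨k₀, a1, a2, a3⟩ := exists_top v hm hd hv hf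
  obtain ⟨l₀, b1, b2, b3⟩ := exists_top v hm hd hv hg
  obtain ⟨-, hz⟩ := dg_uniq hm N _ f hN
  obtain ⟨-, hz'⟩ := dg_uniq hm N' _ g hN'
  have hvf : 0 < v f := zero_lt_iff.2 fun h => hf (hv f h)
  have hvg : 0 < v g := zero_lt_iff.2 fun h => hg (hv g h)
  have wf : 0 < v (dg ϕ k₀ f * ϕ ^ k₀) := hvf.trans_le a3
  have wg : 0 < v (dg ϕ l₀ g * ϕ ^ l₀) := hvg.trans_le b3
  have hk₀ : k₀ < N := by
    by_contra h
    rw [hz k₀ (by omega), zero_mul, map_zero] at wf
    exact lt_irrefl _ wf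
  have hl₀ : l₀ < N' := by
    by_contra h
    rw [hz' l₀ (by omega), zero_mul, map_zero] at wg
    exact lt_irrefl _ wg
  -- products of digits
  set r : ℕ → ℕ → E[X] := fun k l => (dg ϕ k f * dg ϕ l g) %ₘ ϕ with hr
  set s : ℕ → ℕ → E[X] := fun k l => (dg ϕ k f * dg ϕ l g) /ₘ ϕ with hs
  have hrs : ∀ k l, dg ϕ k f * dg ϕ l g = r k l + ϕ * s k l := fun k l =>
    (modByMonic_add_div _ ϕ).symm
  have hϕ0 : ϕ ≠ 0 := hm.ne_zero
  have hbot : ⊥ < ϕ.degree := bot_lt_iff_ne_bot.2 (degree_ne_bot.2 hϕ0)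
  have sdeg : ∀ k l, (s k l).degree < ϕ.degree := by
    intro k l
    by_cases h0 : s k l = 0
    · rw [h0, degree_zero]
      exact hbot
    · have h1 := dg_deg hm k f
      have h2 := dg_deg hm l g
      by_cases h3 : dg ϕ k f = 0
      · exfalso
        apply h0
        show (dg ϕ k f * dg ϕ l g) /ₘ ϕ = 0
        rw [h3, zero_mul, zero_divByMonic]
      · by_cases h4 : dg ϕ l g = 0
        · exfalso
          apply h0
          show (dg ϕ k f * dg ϕ l g) /ₘ ϕ = 0
          rw [h4, mul_zero, zero_divByMonic]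
        · rw [degree_eq_natDegree h0, degree_eq_natDegree hϕ0, Nat.cast_lt]
          rw [degree_eq_natDegree h3, degree_eq_natDegree hϕ0, Nat.cast_lt] at h1
          rw [degree_eq_natDegree h4, degree_eq_natDegree hϕ0, Nat.cast_lt] at h2
          show ((dg ϕ k f * dg ϕ l g) /ₘ ϕ).natDegree < _
          rw [natDegree_divByMonic _ hm, natDegree_mul h3 h4]
          omega
  have rdeg : ∀ k l, (r k l).degree < ϕ.degree := fun k l => degree_modByMonic_lt _ hm
  -- the digits of the product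
  set D : ℕ → E[X] := fun K => ∑ k ∈ Finset.range N, ∑ l ∈ Finset.range N',
    ((if k + l = K then r k l else 0) + (if k + l + 1 = K then s k l else 0)) with hD
  have Ddeg : ∀ K, (D K).degree < ϕ.degree := by
    intro K
    refine lt_of_le_of_lt (degree_sum_le _ _) ?_
    rw [Finset.sup_lt_iff hbot]
    intro k _
    refine lt_of_le_of_lt (degree_sum_le _ _) ?_
    rw [Finset.sup_lt_iff hbot]
    intro l _
    refine lt_of_le_of_lt (degree_add_le _ _) (max_lt ?_ ?_)
    · split_ifs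
      · exact rdeg k l
      · rw [degree_zero]; exact hbot
    · split_ifs
      · exact sdeg k l
      · rw [degree_zero]; exact hbot
  have hExn : Exn ϕ (N + N') D (f * g) := by
    refine ⟨Ddeg, ?_⟩
    have e1 : f * g = ∑ k ∈ Finset.range N, ∑ l ∈ Finset.range N',
        (r k l * ϕ ^ (k + l) + s k l * ϕ ^ (k + l + 1)) := by
      conv_lhs => rw [hN.sum, hN'.sum]
      rw [Finset.sum_mul_sum]
      refine Finset.sum_congr rfl fun k _ => Finset.sum_congr rfl fun l _ => ?_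
      have h1 : dg ϕ k f * ϕ ^ k * (dg ϕ l g * ϕ ^ l) =
          (dg ϕ k f * dg ϕ l g) * ϕ ^ (k + l) := by
        rw [pow_add]; ring
      show dg ϕ k f * ϕ ^ k * (dg ϕ l g * ϕ ^ l) = _
      rw [h1, hrs k l, pow_succ]
      ring
    rw [e1]
    have e2 : ∑ K ∈ Finset.range (N + N'), D K * ϕ ^ K =
        ∑ k ∈ Finset.range N, ∑ l ∈ Finset.range N', ∑ K ∈ Finset.range (N + N'),
          ((if k + l = K then r k l else 0) + (if k + l + 1 = K then s k l else 0)) * ϕ ^ K := by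
      rw [hD]
      simp only [Finset.sum_mul]
      rw [Finset.sum_comm]
      refine Finset.sum_congr rfl fun k _ => ?_
      rw [Finset.sum_comm]
    rw [e2]
    refine Finset.sum_congr rfl fun k hk => Finset.sum_congr rfl fun l hl => ?_
    have hk := Finset.mem_range.1 hk
    have hl := Finset.mem_range.1 hl
    simp only [add_mul, ite_mul, zero_mul, Finset.sum_add_distrib]
    rw [Finset.sum_ite_eq, Finset.sum_ite_eq, if_pos (Finset.mem_range.2 (by omega)),
      if_pos (Finset.mem_range.2 (by omega))]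
  obtain ⟨hdig, -⟩ := dg_uniq hm _ D _ hExn
  have hK : dg ϕ (k₀ + l₀) (f * g) = D (k₀ + l₀) := hdig _ (by omega)
  -- sizes
  have hvr : ∀ k l, v (r k l) ≤ v (dg ϕ k f * dg ϕ l g) := by
    intro k l
    by_cases h3 : dg ϕ k f = 0
    · show v ((dg ϕ k f * dg ϕ l g) %ₘ ϕ) ≤ _
      rw [h3, zero_mul, zero_modByMonic]
    · by_cases h4 : dg ϕ l g = 0
      · show v ((dg ϕ k f * dg ϕ l g) %ₘ ϕ) ≤ _
        rw [h4, mul_zero, zero_modByMonic]
      · have h5 := key _ _ (dg_deg hm k f) (dg_deg hm l g) h3 h4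
        have e : r k l = dg ϕ k f * dg ϕ l g - s k l * ϕ := by
          rw [hrs k l]; ring
        rw [e]
        exact (v.map_sub _ _).trans (max_le le_rfl h5.le)
  have hvs : ∀ k l, v (s k l * ϕ) < v (dg ϕ k f * dg ϕ l g) ∨ s k l = 0 := by
    intro k l
    by_cases h3 : dg ϕ k f = 0
    · right
      show (dg ϕ k f * dg ϕ l g) /ₘ ϕ = 0
      rw [h3, zero_mul, zero_divByMonic]
    · by_cases h4 : dg ϕ l g = 0
      · right
        show (dg ϕ k f * dg ϕ l g) /ₘ ϕ = 0
        rw [h4, mul_zero, zero_divByMonic]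
      · exact Or.inl (key _ _ (dg_deg hm k f) (dg_deg hm l g) h3 h4)
  have hvr0 : v (r k₀ l₀) = v (dg ϕ k₀ f * dg ϕ l₀ g) := by
    have h3 : dg ϕ k₀ f ≠ 0 := fun h => by
      rw [h, zero_mul, map_zero] at wf; exact lt_irrefl _ wf
    have h4 : dg ϕ l₀ g ≠ 0 := fun h => by
      rw [h, zero_mul, map_zero] at wg; exact lt_irrefl _ wg
    have h5 := key _ _ (dg_deg hm k₀ f) (dg_deg hm l₀ g) h3 h4
    have e : r k₀ l₀ = dg ϕ k₀ f * dg ϕ l₀ g - s k₀ l₀ * ϕ := by
      rw [hrs k₀ l₀]; ring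
    rw [e]
    exact Valuation.map_sub_eq_of_lt_left v h5
  have hww : 0 < v (dg ϕ k₀ f * ϕ ^ k₀) * v (dg ϕ l₀ g * ϕ ^ l₀) := mul_pos wf wg
  have hprod : ∀ k l, v (dg ϕ k f * dg ϕ l g * ϕ ^ (k + l)) =
      v (dg ϕ k f * ϕ ^ k) * v (dg ϕ l g * ϕ ^ l) := by
    intro k l
    rw [← map_mul]
    congr 1
    rw [pow_add]
    ring
  -- the digit of the product
  have hval : v (D (k₀ + l₀) * ϕ ^ (k₀ + l₀)) =
      v (dg ϕ k₀ f * ϕ ^ k₀) * v (dg ϕ l₀ g * ϕ ^ l₀) := by
    have e1 : D (k₀ + l₀) * ϕ ^ (k₀ + l₀) = r k₀ l₀ * ϕ ^ (k₀ + l₀) +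
        ∑ k ∈ Finset.range N, ∑ l ∈ Finset.range N',
          ((if k + l = k₀ + l₀ ∧ ¬ (k = k₀ ∧ l = l₀) then r k l else 0) +
            (if k + l + 1 = k₀ + l₀ then s k l else 0)) * ϕ ^ (k₀ + l₀) := by
      have e2 : r k₀ l₀ * ϕ ^ (k₀ + l₀) = ∑ k ∈ Finset.range N, ∑ l ∈ Finset.range N',
          (if k = k₀ ∧ l = l₀ then r k l * ϕ ^ (k₀ + l₀) else 0) := by
        rw [Finset.sum_eq_single k₀, Finset.sum_eq_single l₀]
        · simp
        · intro l _ hl
          simp [hl]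
        · intro h
          exact absurd (Finset.mem_range.2 hl₀) h
        · intro k _ hk
          refine Finset.sum_eq_zero fun l _ => ?_
          simp [hk]
        · intro h
          exact absurd (Finset.mem_range.2 hk₀) h
      rw [e2, ← Finset.sum_add_distrib]
      rw [hD]
      simp only [Finset.sum_mul]
      refine Finset.sum_congr rfl fun k _ => ?_
      rw [← Finset.sum_add_distrib]
      refine Finset.sum_congr rfl fun l _ => ?_
      by_cases h1 : k = k₀ ∧ l = l₀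
      · obtain ⟨rfl, rfl⟩ := h1
        simp
      · by_cases h2 : k + l = k₀ + l₀
        · simp [h1, h2]
        · simp [h1, h2]
    have hrest : v (∑ k ∈ Finset.range N, ∑ l ∈ Finset.range N',
          ((if k + l = k₀ + l₀ ∧ ¬ (k = k₀ ∧ l = l₀) then r k l else 0) +
            (if k + l + 1 = k₀ + l₀ then s k l else 0)) * ϕ ^ (k₀ + l₀)) <
        v (dg ϕ k₀ f * ϕ ^ k₀) * v (dg ϕ l₀ g * ϕ ^ l₀) := by
      refine v.map_sum_lt' hww fun k _ => v.map_sum_lt' hww fun l _ => ?_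
      rw [add_mul]
      refine lt_of_le_of_lt (v.map_add _ _) (max_lt ?_ ?_)
      · split_ifs with h
        · obtain ⟨h1, h2⟩ := h
          rw [map_mul, ← h1]
          refine lt_of_le_of_lt (mul_le_mul' (hvr k l) le_rfl) ?_
          rw [← map_mul, hprod]
          rcases lt_or_ge k k₀ with h3 | h3
          · exact lt_mul_aux (a2 k h3) (b1 l) wg
          · have h4 : l < l₀ := by
              rcases lt_or_eq_of_le h3 with h5 | h5
              · omega
              · exfalso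
                exact h2 ⟨h5.symm, by omega⟩
            rw [mul_comm, mul_comm (v (dg ϕ k₀ f * ϕ ^ k₀))]
            exact lt_mul_aux (b2 l h4) (a1 k) wf
        · rw [zero_mul, map_zero]
          exact hww
      · split_ifs with h
        · rcases hvs k l with h1 | h1
          · rw [← h]
            have e3 : s k l * ϕ ^ (k + l + 1) = s k l * ϕ * ϕ ^ (k + l) := by
              rw [pow_succ]; ring
            rw [e3, map_mul]
            by_cases h5 : v (ϕ ^ (k + l)) = 0
            · rw [h5, mul_zero]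
              exact hww
            · refine lt_of_lt_of_le (mul_lt_mul_of_pos_right h1 (zero_lt_iff.2 h5)) ?_
              rw [← map_mul, hprod]
              exact mul_le_mul' (a1 k) (b1 l)
          · rw [h1, zero_mul, map_zero]
            exact hww
        · rw [zero_mul, map_zero]
          exact hww
    have hmainv : v (r k₀ l₀ * ϕ ^ (k₀ + l₀)) =
        v (dg ϕ k₀ f * ϕ ^ k₀) * v (dg ϕ l₀ g * ϕ ^ l₀) := by
      rw [map_mul, hvr0, ← map_mul, hprod]
    rw [e1, Valuation.map_add_eq_of_lt_left v (by rw [hmainv]; exact hrest), hmainv]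
  have hfin := hfg (k₀ + l₀)
  rw [hK, hval, map_mul v f g] at hfin
  have hle : v (dg ϕ k₀ f * ϕ ^ k₀) ≤ v f := by
    by_contra hlt
    push Not at hlt
    exact absurd (lt_mul_aux hlt b3 wg) (not_lt.2 hfin)
  exact (a1 k).trans hle

end val

theorem prod' : S2_prod.{u} := by
  intro E F _ _ _ V θ ϕ n β hθ hK f g hf hg hD
  set v : Valuation E[X] V.ValueGroup :=
    V.valuation.comap ((aeval θ : E[X] →ₐ[E] F).toRingHom) with hv
  have hvap : ∀ p : E[X], v p = V.valuation (aeval θ p) := fun p => rfl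
  have h0 : ∀ p : E[X], v p = 0 → p = 0 := by
    intro p hp
    rw [hvap, map_eq_zero] at hp
    exact transcendental_iff.1 hθ p hp
  have key : ∀ f g : E[X], f.degree < ϕ.degree → g.degree < ϕ.degree → f ≠ 0 → g ≠ 0 →
      v ((f * g /ₘ ϕ) * ϕ) < v (f * g) := hK.key
  obtain ⟨N, d, hE, hle⟩ := hD
  obtain ⟨u1, u2⟩ := dg_uniq hK.monic N d (f * g) hE
  have hfg : ∀ k, v (dg ϕ k (f * g) * ϕ ^ k) ≤ v (f * g) := by
    intro k
    by_cases hk : k < N
    · rw [u1 k hk]
      exact hle k hk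
    · rw [u2 k (by omega), zero_mul, map_zero]
      exact zero_le
  obtain ⟨M, hM⟩ := dg_exists hK.monic hK.deg f
  exact ⟨M, fun k => dg ϕ k f, hM, fun k _ => main v hK.monic hK.deg h0 key hf hg hfg k⟩

end Pool.Agent.H971.DT2
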